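import Pool.Agent.W973.CES.Defs

/-!
# Coalitions of two and three agents
-/

set_option autoImplicit false

namespace Pool.Agent.W551.CES

open Pool.Agent.W973.CES Pool.Agent.NPC

theorem coal : S_COAL := by
  intro I M hM
  refine ⟨?_, ?_⟩
  · rintro a b ha hb hab ⟨h1, h2⟩
    apply hM.2
    let f : ZMod 2 → Agt := (![a, b] : Fin 2 → Agt)
    refine ⟨2, f, le_rfl, ?_, ?_, ?_⟩
    · intro i j hij
      revert i j
      show ∀ i j : Fin 2, (![a, b] : Fin 2 → Agt) i = (![a, b] : Fin 2 → Agt) j → i = j
      intro i j hij
      fin_cases i <;> fin_cases j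
      · rfl
      · exact absurd hij hab
      · exact absurd hij hab.symm
      · rfl
    · show ∀ i : Fin 2, ((![a, b] : Fin 2 → Agt) i).2 < I.1.length
      intro i
      fin_cases i
      · exact ha
      · exact hb
    · show ∀ i : Fin 2, Envy I M ((![a, b] : Fin 2 → Agt) i) ((![a, b] : Fin 2 → Agt) (i + 1))
      intro i
      fin_cases i
      · exact h1
      · exact h2
  · rintro a b c ha hb hc hab hbc hac ⟨h1, h2, h3⟩
    apply hM.2
    let f : ZMod 3 → Agt := (![a, b, c] : Fin 3 → Agt)
    refine ⟨3, f, by norm_num, ?_, ?_, ?_⟩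
    · intro i j hij
      revert i j
      show ∀ i j : Fin 3, (![a, b, c] : Fin 3 → Agt) i = (![a, b, c] : Fin 3 → Agt) j → i = j
      intro i j hij
      fin_cases i <;> fin_cases j
      · rfl
      · exact absurd hij hab
      · exact absurd hij hac
      · exact absurd hij hab.symm
      · rfl
      · exact absurd hij hbc
      · exact absurd hij hac.symm
      · exact absurd hij hbc.symm
      · rfl
    · show ∀ i : Fin 3, ((![a, b, c] : Fin 3 → Agt) i).2 < I.1.length
      intro i
      fin_cases i
      · exact ha
      · exact hb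
      · exact hc
    · show ∀ i : Fin 3, Envy I M ((![a, b, c] : Fin 3 → Agt) i) ((![a, b, c] : Fin 3 → Agt) (i + 1))
      intro i
      fin_cases i
      · exact h1
      · exact h2
      · exact h3

end Pool.Agent.W551.CES
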